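import Pool.Agent.Helper93.LCH.Basic3

/-!
Row HBV (MP_b555a2_al, ChainCriterion): bounds for inverses of homogeneous expressions.
-/

namespace LCH66

open LCH

universe u v w

set_option linter.unusedSectionVars false

variable {K : Type u} {G : Type v} [Field K] [Group G]

/-- an expression on whose support `f` vanishes is homogeneous of degree `0` -/
theorem hom_of_zero {f : G → ℝ} {e : Ex K G} (h : ∀ g ∈ e.supp, f g = 0) : e.Hom f 0 := by
  induction e with
  | mono c g => exact h g rfl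
  | add a b iha ihb =>
    exact ⟨iha (fun g hg => h g (Or.inl hg)), ihb (fun g hg => h g (Or.inr hg))⟩
  | mul a b iha ihb =>
    exact ⟨0, 0, add_zero 0, iha (fun g hg => h g (Or.inl hg)), ihb (fun g hg => h g (Or.inr hg))⟩
  | inv a iha =>
    have h1 := iha h
    have h2 : a.Hom f (-0) := by rw [neg_zero]; exact h1
    exact h2

/-- scaling of the character -/
theorem fil_scale {s : Sit G} {f : G → ℝ} {a r : ℝ} (ha : 0 < a) {T : Module.End K (s.V K)}
    (h : Fil s (fun g => f g / a) r T) : Fil s f (a * r) T := by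
  intro b v hv x hx
  have h1 := h (b / a) v (fun y hy => div_le_div_of_nonneg_right (hv y hy) ha.le) x hx
  have h2 : (b / a + r) * a ≤ (f x / a) * a := mul_le_mul_of_nonneg_right h1 ha.le
  have h3 : (b / a + r) * a = b + a * r := by field_simp
  have h4 : (f x / a) * a = f x := by field_simp
  rw [h3, h4] at h2
  exact h2

/-- a function vanishing on the support vanishes on the generated subgroup -/
theorem zero_closure {M : Subgroup G} {f : G → ℝ} (hf : IsChar M f) {S : Set G}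
    (hS : ∀ g ∈ S, g ∈ M) (h0 : ∀ g ∈ S, f g = 0) : ∀ g ∈ Subgroup.closure S, f g = 0 := by
  have hle : Subgroup.closure S ≤ M := (Subgroup.closure_le M).2 hS
  intro g hg
  induction hg using Subgroup.closure_induction with
  | mem x hx => exact h0 x hx
  | one => exact ischar_one hf
  | mul x y hx hy h1 h2 => rw [hf x (hle hx) y (hle hy), h1, h2, add_zero]
  | inv x hx h1 => rw [ischar_inv hf (hle hx), h1, neg_zero]

theorem st_HBV (hUEL : ST_UEL.{u, v, w}) (hLFX : ST_LFX.{u, v, w}) (hLFC : ST_LFC.{u, v})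
    (hCE : ST_CE.{v}) (hEXA : ST_EXA.{u, v}) : ST_HBV.{u, v, w} := by
  intro K _ G _ T _ hLI X κ hIH e hmeas hcons L χ ψ hLX hχ hψ hsupp
  intro r hr
  have hr' : e.Hom χ (-r) := hr
  rcases hcons with hZ | hN
  · refine ⟨0, fun i => ?_⟩
    have h1 : e.ev i.s = 0 := hZ i.s (fun g hg => i.at'.1 (hsupp g hg))
    have h2 : (Ex.inv e).ev i.s = 0 := by
      change Ring.inverse (e.ev i.s) = 0
      rw [h1]
      exact Ring.inverse_zero _
    rw [h2]
    exact Fil.zero
  -- the nonzero case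
  have hsn : ∀ g ∈ e.nrm.supp, g ∈ L := supp_nrm_mem hsupp
  set L' : Subgroup G := Subgroup.closure e.nrm.supp with hL'
  have hL'L : L' ≤ L := (Subgroup.closure_le L).2 hsn
  have hsn' : ∀ g ∈ e.nrm.supp, g ∈ L' := fun g hg => Subgroup.subset_closure hg
  have hχ0 : ∀ g ∈ L', χ g = 0 := zero_closure hχ hsn (nrm_zero hχ hsupp hr')
  have htt : e.tt ∈ L := tt_mem hsupp
  have hχtt : χ e.tt = -r := hom_tt hχ hsupp hr'
  -- the value of the character of an index on the inverse of the tip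
  have hftt : ∀ i : Idx L χ ψ, i.f (e.tt)⁻¹ = r - i.t * ψ e.tt := by
    intro i
    have h1 : i.f (e.tt)⁻¹ = χ (e.tt)⁻¹ + i.t * ψ (e.tt)⁻¹ := i.at'.2.2.2 _ (L.inv_mem htt)
    rw [h1, ischar_inv hχ htt, ischar_inv hψ htt, hχtt]
    ring
  -- reduction to the normalised expression
  have hred : ∀ (i : Idx L χ ψ) (q : ℝ), Fil i.s i.f q (Ring.inverse (e.nrm.ev i.s)) →
      Fil i.s i.f (r - i.t * ψ e.tt + q) ((Ex.inv e).ev i.s) := by
    intro i q hq
    have h1 : ∀ g ∈ e.supp, g ∈ i.s.M := fun g hg => i.at'.1 (hsupp g hg)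
    rw [ev_inv_nrm h1]
    have h2 : Fil i.s i.f (i.f (e.tt)⁻¹) (i.s.tr K (e.tt)⁻¹) :=
      Fil_tr i.at'.2.1 (i.s.M.inv_mem (i.at'.1 htt))
    rw [hftt i] at h2
    exact h2.mul hq
  -- the case of an index whose character vanishes on the support
  have hzero : ∀ i : Idx L χ ψ, (∀ g ∈ L', i.f g = 0) →
      Fil i.s i.f 0 (Ring.inverse (e.nrm.ev i.s)) := by
    intro i hi
    have h1 : (Ex.inv e.nrm).Hom i.f 0 := by
      have h3 : e.nrm.Hom i.f 0 := hom_of_zero (fun g hg => hi g (hsn' g hg))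
      have h4 : e.nrm.Hom i.f (-0) := by rw [neg_zero]; exact h3
      exact h4
    exact hEXA K G i.s i.f i.at'.2.1 (Ex.inv e.nrm) 0
      (fun g hg => i.at'.1 (hsn g hg)) h1
  by_cases hψ0 : ∀ g ∈ L', ψ g = 0
  · refine ⟨|ψ e.tt|, fun i => ?_⟩
    have h1 : ∀ g ∈ L', i.f g = 0 := by
      intro g hg
      have h2 : i.f g = χ g + i.t * ψ g := i.at'.2.2.2 _ (hL'L hg)
      rw [h2, hχ0 g hg, hψ0 g hg]
      ring
    have h2 := hred i 0 (hzero i h1)
    refine h2.anti ?_
    have h3 : i.t * ψ e.tt ≤ |i.t * ψ e.tt| := le_abs_self _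
    rw [abs_mul] at h3
    linarith
  -- the case that `ψ` does not vanish on `L'`
  have key : ∀ σ : ℝ, σ ≠ 0 → ∃ q : ℝ, ∀ (s : Sit G) (f : G → ℝ),
      At s f L' (fun g => σ * ψ g) → Fil s f q (Ring.inverse (e.nrm.ev s)) := by
    intro σ hσ
    have hcσL : IsChar L (fun g => σ * ψ g) := by
      intro g hg h hh
      change σ * ψ (g * h) = σ * ψ g + σ * ψ h
      rw [hψ g hg h hh]
      ring
    have hcσ : IsChar L' (fun g => σ * ψ g) := hcσL.mono hL'L
    have hc0 : IsChar L' (fun _ : G => (0 : ℝ)) := by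
      intro g _ h _
      exact (add_zero (0 : ℝ)).symm
    have hm : mle (e.nrm.meas T) κ := by
      left
      rw [meas_nrm, hmeas]
    have hnh : ¬ ∃ q, e.nrm.Hom (fun g => σ * ψ g) q := by
      rintro ⟨q, hq⟩
      have h1 := (nrm_hom hcσL hsupp hq).2
      apply hψ0
      intro g hg
      have h2 := zero_closure hcσL hsn h1 g hg
      have h3 : σ * ψ g = 0 := h2
      rcases mul_eq_zero.1 h3 with h4 | h4
      · exact absurd h4 hσ
      · exact h4
    have hL'X : L' ≤ X := le_trans hL'L hLX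
    have h1 : UE T e.nrm L' (fun g => σ * ψ g) (fun _ => 0) :=
      hUEL K G T hLI X κ hIH e.nrm L' _ _ hL'X hcσ hc0 hsn' hm
    have h2 : LF e.nrm L' (fun g => σ * ψ g) (fun _ => 0) :=
      hLFX K G T X κ hIH e.nrm L' _ _ hL'X hcσ hc0 hm hnh h1
    rcases hLFC K G e.nrm L' _ _ h2 with ⟨ε, hε, h3⟩ | ⟨ε, q, C, hε, h3⟩
    · exfalso
      obtain ⟨s, hsM, hsP⟩ := hCE G hLI L (fun g => σ * ψ g) hcσL
      have hAt : At s (fun g => σ * ψ g) L' (fun g => (fun g => σ * ψ g) g + (0 : ℝ) *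
          (fun _ : G => (0 : ℝ)) g) := by
        refine ⟨?_, ?_, hsP, ?_⟩
        · rw [hsM]; exact hL'L
        · rw [hsM]; exact hcσL
        · intro g _
          change σ * ψ g = σ * ψ g + 0 * 0
          ring
      have h4 := h3 ⟨0, s, fun g => σ * ψ g, hAt⟩ (by
        change |(0 : ℝ)| < ε
        rw [abs_zero]
        exact hε)
      have h4' : e.nrm.ev s = 0 := h4
      have hsupp' : ∀ g ∈ e.supp, g ∈ s.M := by
        intro g hg
        rw [hsM]
        exact hsupp g hg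
      have h5 : VC s (e.nrm.ev s) := by
        rw [ev_nrm' hsupp']
        exact (hN s hsupp').mul (VC_tr (s.M.inv_mem (tt_mem hsupp')))
      exact h5.ne_zero h4'
    · refine ⟨q, ?_⟩
      intro s f hAt
      have hAt' : At s f L' (fun g => (fun g => σ * ψ g) g + (0 : ℝ) *
          (fun _ : G => (0 : ℝ)) g) := by
        refine ⟨hAt.1, hAt.2.1, hAt.2.2.1, ?_⟩
        intro g hg
        have h5 := hAt.2.2.2 g hg
        change f g = σ * ψ g + 0 * 0
        have h6 : f g = σ * ψ g := h5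
        rw [h6]
        ring
      have h4 := (h3 ⟨0, s, f, hAt'⟩ (by
        change |(0 : ℝ)| < ε
        rw [abs_zero]
        exact hε)).2
      have h5 : Fil s f (q - C * |(0 : ℝ)|) (Ring.inverse (e.nrm.ev s)) := h4
      rw [abs_zero, mul_zero, sub_zero] at h5
      exact h5
  obtain ⟨q1, hq1⟩ := key 1 one_ne_zero
  obtain ⟨q2, hq2⟩ := key (-1) (neg_ne_zero.2 one_ne_zero)
  refine ⟨|q1| + |q2| + |ψ e.tt|, fun i => ?_⟩
  have hfL' : ∀ g ∈ L', i.f g = i.t * ψ g := by
    intro g hg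
    have h2 : i.f g = χ g + i.t * ψ g := i.at'.2.2.2 _ (hL'L hg)
    rw [h2, hχ0 g hg, zero_add]
  have hb : i.t * ψ e.tt ≤ |ψ e.tt| * |i.t| := by
    have h3 : i.t * ψ e.tt ≤ |i.t * ψ e.tt| := le_abs_self _
    rw [abs_mul] at h3
    linarith
  have ht0 : 0 ≤ |i.t| := abs_nonneg _
  have hn1 : 0 ≤ |q1| := abs_nonneg _
  have hn2 : 0 ≤ |q2| := abs_nonneg _
  have hscale : ∀ (a : ℝ), 0 < a → ∀ σ : ℝ, i.t = a * σ → ∀ q : ℝ,
      (∀ (s : Sit G) (f : G → ℝ), At s f L' (fun g => σ * ψ g) →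
        Fil s f q (Ring.inverse (e.nrm.ev s))) →
      Fil i.s i.f (a * q) (Ring.inverse (e.nrm.ev i.s)) := by
    intro a ha σ hσ q hq
    apply fil_scale ha
    apply hq i.s (fun g => i.f g / a)
    refine ⟨le_trans hL'L i.at'.1, ?_, ?_, ?_⟩
    · intro g hg h hh
      change i.f (g * h) / a = i.f g / a + i.f h / a
      rw [i.at'.2.1 g hg h hh, add_div]
    · intro g hg
      exact div_nonneg (i.at'.2.2.1 g hg) ha.le
    · intro g hg
      change i.f g / a = σ * ψ g
      rw [hfL' g hg, hσ]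
      field_simp
  rcases lt_trichotomy i.t 0 with ht | ht | ht
  · have h1 := hscale (-i.t) (by linarith) (-1) (by ring) q2 hq2
    have h2 := hred i _ h1
    refine h2.anti ?_
    have h3 : |i.t| = -i.t := abs_of_neg ht
    have h4 : -|q2| ≤ q2 := neg_abs_le q2
    have h5 : |i.t| * (-|q2|) ≤ |i.t| * q2 := mul_le_mul_of_nonneg_left h4 ht0
    have h6 : 0 ≤ |q1| * |i.t| := mul_nonneg hn1 ht0
    rw [← h3]
    nlinarith
  · have h1 : ∀ g ∈ L', i.f g = 0 := by
      intro g hg
      rw [hfL' g hg, ht, zero_mul]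
    have h2 := hred i 0 (hzero i h1)
    refine h2.anti ?_
    rw [ht, abs_zero]
    simp
  · have h1 := hscale i.t ht 1 (by ring) q1 hq1
    have h2 := hred i _ h1
    refine h2.anti ?_
    have h3 : |i.t| = i.t := abs_of_pos ht
    have h4 : -|q1| ≤ q1 := neg_abs_le q1
    have h5 : |i.t| * (-|q1|) ≤ |i.t| * q1 := mul_le_mul_of_nonneg_left h4 ht0
    have h6 : 0 ≤ |q2| * |i.t| := mul_nonneg hn2 ht0
    have h7 : i.t * q1 = |i.t| * q1 := by rw [h3]
    rw [h7]
    nlinarith

end LCH66
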